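import Mathlib

/-! Project MW, module P4: the smooth cut-off, its Fourier transform. -/

set_option autoImplicit false

namespace Pool.Agent.D0H98.MW

open Complex Filter Topology MeasureTheory Set

/-- the profile: `1` for `v ≤ 0`, `0` for `v ≥ 1` -/
noncomputable def S (v : ℝ) : ℝ := Real.smoothTransition (1 - v)

theorem S_smooth : ContDiff ℝ 2 S := by
  unfold S
  have h : ContDiff ℝ 2 Real.smoothTransition := Real.smoothTransition.contDiff (n := 2)
  exact h.comp (contDiff_const.sub contDiff_id)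

theorem S_one {v : ℝ} (h : v ≤ 0) : S v = 1 := Real.smoothTransition.one_of_one_le (by linarith)

theorem S_zero {v : ℝ} (h : 1 ≤ v) : S v = 0 := Real.smoothTransition.zero_of_nonpos (by linarith)

theorem S_nonneg (v : ℝ) : 0 ≤ S v := Real.smoothTransition.nonneg _

theorem S_le_one (v : ℝ) : S v ≤ 1 := Real.smoothTransition.le_one _

theorem S_cont : Continuous S := S_smooth.continuous

theorem S1_smooth : ContDiff ℝ 1 (deriv S) := by
  have h : ContDiff ℝ (1 + 1) S := by
    have := S_smooth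
    norm_num
    exact this
  exact (contDiff_succ_iff_deriv.mp h).2.2

theorem S1_cont : Continuous (deriv S) := S1_smooth.continuous

theorem S2_cont : Continuous (deriv (deriv S)) := S1_smooth.continuous_deriv le_rfl

theorem S_hd (v : ℝ) : HasDerivAt S (deriv S v) v :=
  (S_smooth.differentiable (by norm_num)).differentiableAt.hasDerivAt

theorem S1_hd (v : ℝ) : HasDerivAt (deriv S) (deriv (deriv S) v) v :=
  (S1_smooth.differentiable (by norm_num)).differentiableAt.hasDerivAt

theorem S1_neg {v : ℝ} (h : v < 0) : deriv S v = 0 := by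
  have : S =ᶠ[𝓝 v] fun _ => 1 := by
    filter_upwards [Iio_mem_nhds h] with w hw
    exact S_one (le_of_lt hw)
  rw [this.deriv_eq]; simp

theorem S1_big {v : ℝ} (h : 1 < v) : deriv S v = 0 := by
  have : S =ᶠ[𝓝 v] fun _ => 0 := by
    filter_upwards [Ioi_mem_nhds h] with w hw
    exact S_zero (le_of_lt hw)
  rw [this.deriv_eq]; simp

theorem S2_neg {v : ℝ} (h : v < 0) : deriv (deriv S) v = 0 := by
  have : deriv S =ᶠ[𝓝 v] fun _ => 0 := by
    filter_upwards [Iio_mem_nhds h] with w hw
    exact S1_neg hw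
  rw [this.deriv_eq]; simp

theorem S2_big {v : ℝ} (h : 1 < v) : deriv (deriv S) v = 0 := by
  have : deriv S =ᶠ[𝓝 v] fun _ => 0 := by
    filter_upwards [Ioi_mem_nhds h] with w hw
    exact S1_big hw
  rw [this.deriv_eq]; simp

theorem S2_bdd : ∃ M : ℝ, 0 < M ∧ ∀ v, |deriv (deriv S) v| ≤ M := by
  obtain ⟨M, hM⟩ := (isCompact_Icc (a := (0:ℝ)) (b := 1)).exists_bound_of_continuousOn
    S2_cont.continuousOn
  refine ⟨max M 1, by positivity, fun v => ?_⟩
  by_cases h1 : v < 0
  · rw [S2_neg h1]; simp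
  by_cases h2 : 1 < v
  · rw [S2_big h2]; simp
  push Not at h1 h2
  exact (hM v ⟨h1, h2⟩).trans (le_max_left _ _)

/-- two integrations by parts -/
theorem ibp (c D : ℝ) (hc : 0 < c) (a : ℂ) (ha : 0 < a.re) :
    Integrable (fun u : ℝ => (S ((u - D) / c) : ℂ) * cexp (a * u)) ∧
    ∫ u : ℝ, (S ((u - D) / c) : ℂ) * cexp (a * u) =
      ∫ u : ℝ, (1 / (c * a) ^ 2) * (((deriv (deriv S) ((u - D) / c) : ℝ) : ℂ) * cexp (a * u)) := by
  have ha0 : a ≠ 0 := by
    intro h; rw [h] at ha; simp at ha
  have hcC : (c : ℂ) ≠ 0 := by exact_mod_cast hc.ne'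
  have hnorm : ∀ u : ℝ, ‖cexp (a * u)‖ = Real.exp (a.re * u) := by
    intro u
    rw [Complex.norm_exp]
    simp
  have hcont : Continuous (fun u : ℝ => cexp (a * u)) := by fun_prop
  have hSc : Continuous (fun u : ℝ => (S ((u - D) / c) : ℂ)) := by
    apply Complex.continuous_ofReal.comp
    exact S_cont.comp (by fun_prop)
  have hS2c : Continuous (fun u : ℝ => ((deriv (deriv S) ((u - D) / c) : ℝ) : ℂ)) := by
    apply Complex.continuous_ofReal.comp
    exact S2_cont.comp (by fun_prop)
  have hzero : ∀ u : ℝ, D + c < u → 1 < (u - D) / c := by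
    intro u hu
    rw [lt_div_iff₀ hc]; linarith
  have hneg : ∀ u : ℝ, u < D → (u - D) / c < 0 := by
    intro u hu
    apply div_neg_of_neg_of_pos _ hc
    linarith
  have hint1 : Integrable (fun u : ℝ => (S ((u - D) / c) : ℂ) * cexp (a * u)) := by
    have h1 : IntegrableOn (fun u : ℝ => (S ((u - D) / c) : ℂ) * cexp (a * u)) (Iic (D + c)) := by
      refine Integrable.mono' (integrableOn_exp_mul_Iic ha (D + c))
        (hSc.mul hcont).aestronglyMeasurable ?_
      filter_upwards with u
      rw [norm_mul, hnorm, Complex.norm_real, Real.norm_of_nonneg (S_nonneg _)]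
      calc S ((u - D) / c) * Real.exp (a.re * u) ≤ 1 * Real.exp (a.re * u) :=
            mul_le_mul_of_nonneg_right (S_le_one _) (Real.exp_pos _).le
        _ = _ := one_mul _
    have h2 : IntegrableOn (fun u : ℝ => (S ((u - D) / c) : ℂ) * cexp (a * u)) (Ioi (D + c)) := by
      apply (integrableOn_zero (μ := volume) (s := Ioi (D + c))).congr_fun _ measurableSet_Ioi
      intro u hu
      simp only
      rw [S_zero (hzero u hu).le]; simp
    rw [← integrableOn_univ, ← Iic_union_Ioi (a := D + c)]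
    exact h1.union h2
  have hcs : HasCompactSupport (fun u : ℝ => (1 / (c * a) ^ 2) *
      (((deriv (deriv S) ((u - D) / c) : ℝ) : ℂ) * cexp (a * u))) := by
    apply HasCompactSupport.of_support_subset_isCompact (isCompact_Icc (a := D) (b := D + c))
    intro u hu
    by_contra hcon
    apply hu
    rw [mem_Icc, not_and_or, not_le, not_le] at hcon
    rcases hcon with h | h
    · simp only; rw [S2_neg (hneg u h)]; simp
    · simp only; rw [S2_big (hzero u h)]; simp
  have hint2 : Integrable (fun u : ℝ => (1 / (c * a) ^ 2) *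
      (((deriv (deriv S) ((u - D) / c) : ℝ) : ℂ) * cexp (a * u))) :=
    (continuous_const.mul (hS2c.mul hcont)).integrable_of_hasCompactSupport hcs
  refine ⟨hint1, ?_⟩
  rw [← sub_eq_zero, ← integral_sub hint1 hint2]
  set G : ℝ → ℂ := fun u => (S ((u - D) / c) : ℂ) * cexp (a * u) / a -
    (1 / c) * ((deriv S ((u - D) / c) : ℝ) : ℂ) * cexp (a * u) / a ^ 2 with hG
  have hder : ∀ u : ℝ, HasDerivAt G ((S ((u - D) / c) : ℂ) * cexp (a * u) -
      (1 / (c * a) ^ 2) * (((deriv (deriv S) ((u - D) / c) : ℝ) : ℂ) * cexp (a * u))) u := by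
    intro u
    have e1 : HasDerivAt (fun u : ℝ => (u - D) / c) (1 / c) u := by
      have := ((hasDerivAt_id u).sub_const D).div_const c
      simpa using this
    have e2 : HasDerivAt (fun u : ℝ => (S ((u - D) / c) : ℂ))
        ((deriv S ((u - D) / c) * (1 / c) : ℝ) : ℂ) u := by
      have h := HasDerivAt.comp (h₂ := S) (h := fun u : ℝ => (u - D) / c) u (S_hd ((u - D) / c)) e1
      exact h.ofReal_comp
    have e3 : HasDerivAt (fun u : ℝ => ((deriv S ((u - D) / c) : ℝ) : ℂ))
        ((deriv (deriv S) ((u - D) / c) * (1 / c) : ℝ) : ℂ) u := by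
      have h := HasDerivAt.comp (h₂ := deriv S) (h := fun u : ℝ => (u - D) / c) u
        (S1_hd ((u - D) / c)) e1
      exact h.ofReal_comp
    have e4 : HasDerivAt (fun u : ℝ => cexp (a * u)) (cexp (a * u) * a) u := by
      have h1 : HasDerivAt (fun u : ℝ => a * (u : ℂ)) (a * 1) u :=
        (Complex.ofRealCLM.hasDerivAt (x := u)).const_mul a
      have := h1.cexp
      simpa using this
    have e5 := ((e2.mul e4).div_const a).sub (((e3.const_mul ((1 : ℂ) / c)).mul e4).div_const (a ^ 2))
    refine e5.congr_deriv ?_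
    push_cast
    field_simp
    ring
  have hlim : Tendsto G atBot (𝓝 0) := by
    have h1 : Tendsto (fun u : ℝ => Real.exp (a.re * u) / ‖a‖) atBot (𝓝 0) := by
      have : Tendsto (fun u : ℝ => Real.exp (a.re * u)) atBot (𝓝 0) :=
        Real.tendsto_exp_atBot.comp (tendsto_id.const_mul_atBot ha)
      simpa using this.div_const ‖a‖
    refine squeeze_zero_norm' ?_ h1
    filter_upwards [Iio_mem_atBot D] with u hu
    have h2 : deriv S ((u - D) / c) = 0 := S1_neg (hneg u hu)
    simp only [hG, h2, Complex.ofReal_zero, mul_zero, zero_mul, zero_div, sub_zero]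
    rw [norm_div, norm_mul, hnorm, Complex.norm_real, Real.norm_of_nonneg (S_nonneg _)]
    apply div_le_div_of_nonneg_right _ (norm_nonneg _)
    calc S ((u - D) / c) * Real.exp (a.re * u) ≤ 1 * Real.exp (a.re * u) :=
          mul_le_mul_of_nonneg_right (S_le_one _) (Real.exp_pos _).le
      _ = _ := one_mul _
  have hlim2 : Tendsto G atTop (𝓝 0) := by
    apply tendsto_const_nhds.congr'
    filter_upwards [Ioi_mem_atTop (D + c)] with u hu
    simp only [hG]
    rw [S_zero (hzero u hu).le, S1_big (hzero u hu)]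
    simp
  have := integral_of_hasDerivAt_of_tendsto hder (hint1.sub hint2) hlim hlim2
  simpa using this

/-- the bound of the Fourier integral -/
theorem four_bound : ∃ M : ℝ, 0 < M ∧ ∀ (κ c D y : ℝ), 0 < κ → 0 < c →
    ‖∫ u : ℝ, (S ((u - D) / c) : ℂ) * cexp (((κ : ℂ) - (y : ℂ) * I) * u)‖ ≤
      M * Real.exp (κ * (D + c)) / c / (κ ^ 2 + y ^ 2) := by
  obtain ⟨M, hM0, hM⟩ := S2_bdd
  refine ⟨M, hM0, ?_⟩
  intro κ c D y hκ hc
  set a : ℂ := (κ : ℂ) - (y : ℂ) * I with ha
  have hre : a.re = κ := by simp [ha]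
  have him : a.im = -y := by simp [ha]
  have hna : ‖a‖ ^ 2 = κ ^ 2 + y ^ 2 := by
    rw [← Complex.normSq_eq_norm_sq, Complex.normSq_apply, hre, him]; ring
  have hpos : 0 < κ ^ 2 + y ^ 2 := by positivity
  rw [(ibp c D hc a (by rw [hre]; exact hκ)).2]
  rw [MeasureTheory.integral_const_mul, norm_mul]
  have e1 : ‖(1 / ((c : ℂ) * a) ^ 2)‖ = 1 / (c ^ 2 * (κ ^ 2 + y ^ 2)) := by
    rw [norm_div, norm_one, norm_pow, norm_mul, mul_pow, hna, Complex.norm_real, Real.norm_eq_abs,
      sq_abs]
  have e2 : ∫ u : ℝ, ((deriv (deriv S) ((u - D) / c) : ℝ) : ℂ) * cexp (a * u) =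
      ∫ u in Icc D (D + c), ((deriv (deriv S) ((u - D) / c) : ℝ) : ℂ) * cexp (a * u) := by
    rw [setIntegral_eq_integral_of_forall_compl_eq_zero]
    intro u hu
    rw [mem_Icc, not_and_or, not_le, not_le] at hu
    rcases hu with h | h
    · rw [S2_neg (div_neg_of_neg_of_pos (by linarith) hc)]; simp
    · rw [S2_big (by rw [lt_div_iff₀ hc]; linarith)]; simp
  have e3 : ‖∫ u : ℝ, ((deriv (deriv S) ((u - D) / c) : ℝ) : ℂ) * cexp (a * u)‖ ≤
      (M * Real.exp (κ * (D + c))) * c := by
    rw [e2]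
    have := norm_setIntegral_le_of_norm_le_const (μ := volume) (s := Icc D (D + c))
      (f := fun u : ℝ => ((deriv (deriv S) ((u - D) / c) : ℝ) : ℂ) * cexp (a * u))
      (C := M * Real.exp (κ * (D + c))) (by simp) (by
        intro u hu
        rw [norm_mul, Complex.norm_exp, Complex.norm_real, Real.norm_eq_abs]
        have : (a * (u : ℂ)).re = κ * u := by simp [hre]
        rw [this]
        apply mul_le_mul (hM _) _ (Real.exp_pos _).le hM0.le
        apply Real.exp_le_exp.mpr
        exact mul_le_mul_of_nonneg_left hu.2 hκ.le)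
    refine this.trans (le_of_eq ?_)
    rw [Measure.real, Real.volume_Icc, ENNReal.toReal_ofReal (by linarith)]
    ring
  rw [e1]
  calc 1 / (c ^ 2 * (κ ^ 2 + y ^ 2)) *
        ‖∫ u : ℝ, ((deriv (deriv S) ((u - D) / c) : ℝ) : ℂ) * cexp (a * u)‖
      ≤ 1 / (c ^ 2 * (κ ^ 2 + y ^ 2)) * ((M * Real.exp (κ * (D + c))) * c) :=
        mul_le_mul_of_nonneg_left e3 (by positivity)
    _ = M * Real.exp (κ * (D + c)) / c / (κ ^ 2 + y ^ 2) := by
        field_simp

end Pool.Agent.D0H98.MW
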