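import Pool.Agent.D0H44.MW.Stm
import Pool.Agent.D0H98.MW.CutA

/-! Project MW, module P4 (`S_CUT`). -/

set_option autoImplicit false

namespace Pool.Agent.D0H98.MW

open Complex Filter Topology MeasureTheory Set FourierTransform Pool.Agent.D0H44.MW

/-- `e^{κ u} S((u - D)/c)` -/
noncomputable def Rr (κ c D : ℝ) (u : ℝ) : ℂ := (S ((u - D) / c) : ℂ) * cexp ((κ : ℂ) * u)

theorem Rr_cont (κ c D : ℝ) : Continuous (Rr κ c D) := by
  unfold Rr
  apply Continuous.mul
  · exact Complex.continuous_ofReal.comp (S_cont.comp (by fun_prop))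
  · fun_prop

theorem Rr_int {κ c : ℝ} (D : ℝ) (hκ : 0 < κ) (hc : 0 < c) : Integrable (Rr κ c D) :=
  (ibp c D hc (κ : ℂ) (by simpa using hκ)).1

theorem four_Rr_eq (κ c D ξ : ℝ) : 𝓕 (Rr κ c D) ξ =
    ∫ u : ℝ, (S ((u - D) / c) : ℂ) * cexp (((κ : ℂ) - ((2 * Real.pi * ξ : ℝ) : ℂ) * I) * u) := by
  rw [Real.fourier_real_eq_integral_exp_smul]
  congr 1
  ext u
  unfold Rr
  rw [smul_eq_mul, mul_left_comm, ← Complex.exp_add]
  congr 2
  push_cast
  ring

theorem conv {f g : ℝ → ℂ} (hfc : Continuous f) (hf : Integrable f) (hk : Integrable (𝓕 f))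
    (hg : Integrable g) (ξ : ℝ) :
    𝓕 (fun u => f u * g u) ξ = ∫ η : ℝ, 𝓕 f η * 𝓕 g (ξ - η) := by
  have hinv : ∀ u, f u = ∫ η : ℝ, cexp ((↑(2 * Real.pi * (η * u)) : ℂ) * I) * 𝓕 f η := by
    intro u
    have h := congrFun (hfc.fourierInv_fourier_eq hf hk) u
    rw [← h, Real.fourierInv_eq']
    congr 1
    ext η
    rw [smul_eq_mul]
    congr 3
    simp [mul_comm]
  have hF : Integrable (fun p : ℝ × ℝ => g p.1 * 𝓕 f p.2) (volume.prod volume) := hg.mul_prod hk
  have hF2 : Integrable (fun p : ℝ × ℝ => cexp (↑(-2 * Real.pi * p.1 * (ξ - p.2)) * I) *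
      (g p.1 * 𝓕 f p.2)) (volume.prod volume) := by
    refine Integrable.mono' hF.norm ?_ ?_
    · apply AEStronglyMeasurable.mul _ hF.aestronglyMeasurable
      exact (by fun_prop : Continuous (fun p : ℝ × ℝ =>
        cexp (↑(-2 * Real.pi * p.1 * (ξ - p.2)) * I))).aestronglyMeasurable
    · filter_upwards with p
      rw [norm_mul, Complex.norm_exp_ofReal_mul_I, one_mul]
  rw [Real.fourier_real_eq_integral_exp_smul]
  calc ∫ v : ℝ, cexp (↑(-2 * Real.pi * v * ξ) * I) • (f v * g v)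
      = ∫ v : ℝ, ∫ η : ℝ, cexp (↑(-2 * Real.pi * v * (ξ - η)) * I) * (g v * 𝓕 f η) := by
        congr 1
        ext v
        rw [hinv v, smul_eq_mul, ← MeasureTheory.integral_mul_const,
          ← MeasureTheory.integral_const_mul]
        congr 1
        ext η
        have : cexp (↑(-2 * Real.pi * v * (ξ - η)) * I) =
            cexp (↑(-2 * Real.pi * v * ξ) * I) * cexp (↑(2 * Real.pi * (η * v)) * I) := by
          rw [← Complex.exp_add]; congr 1; push_cast; ring
        rw [this]; ring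
    _ = ∫ η : ℝ, ∫ v : ℝ, cexp (↑(-2 * Real.pi * v * (ξ - η)) * I) * (g v * 𝓕 f η) :=
        integral_integral_swap hF2
    _ = ∫ η : ℝ, 𝓕 f η * 𝓕 g (ξ - η) := by
        congr 1
        ext η
        rw [Real.fourier_real_eq_integral_exp_smul g, ← MeasureTheory.integral_const_mul]
        congr 1
        ext v
        rw [smul_eq_mul]; ring

theorem q_int {κ : ℝ} (hκ : 0 < κ) : Integrable (fun s : ℝ => (κ ^ 2 + s ^ 2)⁻¹) ∧
    ∫ s : ℝ, (κ ^ 2 + s ^ 2)⁻¹ = Real.pi / κ := by
  have e : (fun s : ℝ => (κ ^ 2 + s ^ 2)⁻¹) = fun s : ℝ => (κ ^ 2)⁻¹ * (1 + (s / κ) ^ 2)⁻¹ := by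
    ext s
    rw [← mul_inv]
    congr 1
    field_simp
  rw [e]
  constructor
  · exact (integrable_inv_one_add_sq.comp_div hκ.ne').const_mul _
  · rw [MeasureTheory.integral_const_mul, Measure.integral_comp_div (fun x : ℝ => (1 + x ^ 2)⁻¹),
      integral_univ_inv_one_add_sq, abs_of_pos hκ, smul_eq_mul]
    field_simp

theorem pq_le {κ : ℝ} (hκ : 0 < κ) (hκ1 : κ ≤ 1) (u : ℝ) :
    ∫ t : ℝ, (1 + t ^ 2)⁻¹ * (κ ^ 2 + (u - t) ^ 2)⁻¹ ≤ 4 * Real.pi / κ / (1 + u ^ 2) := by
  have hq := q_int hκ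
  have hq1 : Integrable (fun t : ℝ => (κ ^ 2 + (u - t) ^ 2)⁻¹) := hq.1.comp_sub_left u
  have hq2 : ∫ t : ℝ, (κ ^ 2 + (u - t) ^ 2)⁻¹ = Real.pi / κ := by
    rw [← hq.2]
    exact integral_sub_left_eq_self (fun s : ℝ => (κ ^ 2 + s ^ 2)⁻¹) volume u
  have hle : ∀ t : ℝ, (1 + t ^ 2)⁻¹ * (κ ^ 2 + (u - t) ^ 2)⁻¹ ≤
      (2 / (1 + u ^ 2)) * ((κ ^ 2 + (u - t) ^ 2)⁻¹ + (1 + t ^ 2)⁻¹) := by
    intro t
    have h1 : 0 < 1 + t ^ 2 := by positivity
    have h2 : 0 < κ ^ 2 + (u - t) ^ 2 := by positivity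
    have h3 : 0 < 1 + u ^ 2 := by positivity
    rw [← one_div, ← one_div, div_mul_div_comm, div_add_div _ _ h2.ne' h1.ne', div_mul_div_comm,
      div_le_div_iff₀ (by positivity) (by positivity)]
    have h4 : 1 + u ^ 2 ≤ 2 * (1 + t ^ 2 + (κ ^ 2 + (u - t) ^ 2)) := by
      nlinarith [sq_nonneg (u - 2 * t), sq_nonneg κ]
    have h5 : 0 ≤ (1 + t ^ 2) * (κ ^ 2 + (u - t) ^ 2) := by positivity
    nlinarith [mul_le_mul_of_nonneg_right h4 h5]
  calc ∫ t : ℝ, (1 + t ^ 2)⁻¹ * (κ ^ 2 + (u - t) ^ 2)⁻¹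
      ≤ ∫ t : ℝ, (2 / (1 + u ^ 2)) * ((κ ^ 2 + (u - t) ^ 2)⁻¹ + (1 + t ^ 2)⁻¹) := by
        apply integral_mono_of_nonneg
        · filter_upwards with t; positivity
        · exact (hq1.add integrable_inv_one_add_sq).const_mul _
        · filter_upwards with t using hle t
    _ = (2 / (1 + u ^ 2)) * (Real.pi / κ + Real.pi) := by
        rw [MeasureTheory.integral_const_mul, integral_add hq1 integrable_inv_one_add_sq, hq2,
          integral_univ_inv_one_add_sq]
    _ ≤ (2 / (1 + u ^ 2)) * (2 * (Real.pi / κ)) := by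
        apply mul_le_mul_of_nonneg_left _ (by positivity)
        have : Real.pi ≤ Real.pi / κ := by
          rw [le_div_iff₀ hκ]
          nlinarith [Real.pi_pos]
        linarith
    _ = _ := by field_simp; ring

/-- the double integral -/
theorem dbl {κ : ℝ} (hκ : 0 < κ) (hκ1 : κ ≤ 1) {h : ℝ → ℝ} (hc : Continuous h)
    (h0 : ∀ u, 0 ≤ h u) {B : ℝ} (hB : ∀ u, h u ≤ B) :
    Integrable (fun t : ℝ => (1 + t ^ 2)⁻¹ * ∫ u : ℝ, (κ ^ 2 + (u - t) ^ 2)⁻¹ * h u) ∧
    ∫ t : ℝ, (1 + t ^ 2)⁻¹ * ∫ u : ℝ, (κ ^ 2 + (u - t) ^ 2)⁻¹ * h u ≤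
      4 * Real.pi / κ * ∫ u : ℝ, h u / (1 + u ^ 2) := by
  have hq := q_int hκ
  have h1 : Integrable (fun p : ℝ × ℝ => (1 + p.2 ^ 2)⁻¹ * (κ ^ 2 + (p.1 - p.2) ^ 2)⁻¹)
      (volume.prod volume) := by
    have := Integrable.convolution_integrand (ContinuousLinearMap.mul ℝ ℝ)
      (f := fun t : ℝ => (1 + t ^ 2)⁻¹) (g := fun s : ℝ => (κ ^ 2 + s ^ 2)⁻¹) (μ := volume)
      (ν := volume) integrable_inv_one_add_sq hq.1
    simpa using this
  have h2 : Integrable (fun p : ℝ × ℝ => h p.1 * ((1 + p.2 ^ 2)⁻¹ *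
      (κ ^ 2 + (p.1 - p.2) ^ 2)⁻¹)) (volume.prod volume) := by
    refine Integrable.mono' (h1.const_mul B) ?_ ?_
    · exact (hc.comp continuous_fst).aestronglyMeasurable.mul h1.aestronglyMeasurable
    · filter_upwards with p
      rw [Real.norm_of_nonneg (mul_nonneg (h0 _) (by positivity))]
      exact mul_le_mul_of_nonneg_right (hB _) (by positivity)
  have e : (fun t : ℝ => (1 + t ^ 2)⁻¹ * ∫ u : ℝ, (κ ^ 2 + (u - t) ^ 2)⁻¹ * h u) =
      fun t : ℝ => ∫ u : ℝ, h u * ((1 + t ^ 2)⁻¹ * (κ ^ 2 + (u - t) ^ 2)⁻¹) := by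
    ext t
    rw [← MeasureTheory.integral_const_mul]
    congr 1
    ext u
    ring
  rw [e]
  constructor
  · exact h2.integral_prod_right
  · rw [← integral_integral_swap h2]
    rw [← MeasureTheory.integral_const_mul]
    have hint : Integrable (fun u : ℝ => 4 * Real.pi / κ * (h u / (1 + u ^ 2))) := by
      apply Integrable.const_mul
      refine Integrable.mono' (integrable_inv_one_add_sq.const_mul B) ?_ ?_
      · apply Continuous.aestronglyMeasurable
        apply hc.div (by fun_prop)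
        intro u; positivity
      · filter_upwards with u
        rw [Real.norm_of_nonneg (div_nonneg (h0 _) (by positivity)), div_eq_mul_inv]
        exact mul_le_mul_of_nonneg_right (hB _) (by positivity)
    apply integral_mono_of_nonneg
    · filter_upwards with u
      apply integral_nonneg
      intro t
      exact mul_nonneg (h0 _) (by positivity)
    · exact hint
    · filter_upwards with u
      rw [MeasureTheory.integral_const_mul]
      calc h u * ∫ t : ℝ, (1 + t ^ 2)⁻¹ * (κ ^ 2 + (u - t) ^ 2)⁻¹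
          ≤ h u * (4 * Real.pi / κ / (1 + u ^ 2)) :=
            mul_le_mul_of_nonneg_left (pq_le hκ hκ1 u) (h0 u)
        _ = _ := by ring

theorem cut : S_CUT := by
  obtain ⟨M, hM0, hM⟩ := four_bound
  refine ⟨2 * M, by positivity, ?_⟩
  intro κ c D hκ hκ8 hc hD
  have hc0 : 0 < c := by linarith
  refine ⟨fun x => S ((-Real.log x - D) / c), ?_, fun x => ⟨S_nonneg _, S_le_one _⟩, ?_, ?_, ?_⟩
  · apply S_cont.comp_continuousOn
    apply ContinuousOn.div_const
    apply ContinuousOn.sub _ continuousOn_const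
    apply ContinuousOn.neg
    exact Real.continuousOn_log.mono (fun x hx => (ne_of_gt hx : x ≠ 0))
  · intro x hx hx2
    apply S_zero
    rw [le_div_iff₀ hc0]
    have := Real.log_le_log hx hx2
    rw [Real.log_exp] at this
    linarith
  · intro x hx
    apply S_one
    apply div_nonpos_of_nonpos_of_nonneg _ hc0.le
    have := Real.log_le_log (Real.exp_pos _) hx
    rw [Real.log_exp] at this
    linarith
  · intro H hH
    set ρ : ℝ → ℝ := fun x => S ((-Real.log x - D) / c) with hρ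
    have hρc : ContinuousOn ρ (Ioi 0) := by
      apply S_cont.comp_continuousOn
      apply ContinuousOn.div_const
      apply ContinuousOn.sub _ continuousOn_const
      apply ContinuousOn.neg
      exact Real.continuousOn_log.mono (fun x hx => (ne_of_gt hx : x ≠ 0))
    have hρ0 : ∀ x, 0 < x → x ≤ Real.exp (-(D + c)) → ρ x = 0 := by
      intro x hx hx2
      apply S_zero
      rw [le_div_iff₀ hc0]
      have := Real.log_le_log hx hx2
      rw [Real.log_exp] at this
      linarith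
    have hMC : MC (fun x => (ρ x : ℂ) * H x) (1 / 2 - κ) := by
      constructor
      · apply ContinuousOn.mul _ hH.cont
        exact Complex.continuous_ofReal.comp_continuousOn hρc
      · obtain ⟨C, m, hm, b1, b2⟩ := hH.bd
        have hC : 0 ≤ C := by
          have := b1 1 one_pos
          rw [Real.one_rpow, mul_one] at this
          exact (norm_nonneg _).trans this
        have key : ∀ e : ℝ, ∀ x, 0 < x → ‖H x‖ ≤ C * x ^ (-(1 / 2) + e : ℝ) →
            ‖(ρ x : ℂ) * H x‖ ≤ C * Real.exp (κ * (D + c)) * x ^ (-(1 / 2 - κ) + e : ℝ) := by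
          intro e x hx hb
          rcases le_or_gt x (Real.exp (-(D + c))) with h | h
          · rw [hρ0 x hx h]; simp; positivity
          · rw [norm_mul, Complex.norm_real, Real.norm_of_nonneg (S_nonneg _)]
            have h1 : x ^ (-κ) ≤ Real.exp (κ * (D + c)) := by
              rw [Real.rpow_neg hx.le, ← one_div]
              rw [div_le_iff₀ (by positivity)]
              have h2 : Real.exp (-(κ * (D + c))) ≤ x ^ κ := by
                calc Real.exp (-(κ * (D + c))) = (Real.exp (-(D + c))) ^ κ := by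
                      rw [← Real.exp_mul]; congr 1; ring
                  _ ≤ x ^ κ := Real.rpow_le_rpow (Real.exp_pos _).le h.le hκ.le
              calc (1 : ℝ) = Real.exp (κ * (D + c)) * Real.exp (-(κ * (D + c))) := by
                    rw [← Real.exp_add]; simp
                _ ≤ _ := mul_le_mul_of_nonneg_left h2 (Real.exp_pos _).le
            calc S ((-Real.log x - D) / c) * ‖H x‖ ≤ 1 * (C * x ^ (-(1 / 2) + e : ℝ)) :=
                  mul_le_mul (S_le_one _) hb (norm_nonneg _) zero_le_one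
              _ = C * (x ^ (-κ) * x ^ (-(1 / 2 - κ) + e : ℝ)) := by
                  rw [← Real.rpow_add hx, one_mul]; congr 2; ring
              _ ≤ C * (Real.exp (κ * (D + c)) * x ^ (-(1 / 2 - κ) + e : ℝ)) := by gcongr
              _ = _ := by ring
        refine ⟨C * Real.exp (κ * (D + c)), m, hm, fun x hx => ?_, fun x hx => ?_⟩
        · exact key m x hx (b1 x hx)
        · have := key (-m) x hx (by simpa only [← sub_eq_add_neg] using b2 x hx)
          simpa only [← sub_eq_add_neg] using this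
    refine ⟨hMC, ?_⟩
    set g := gg H (1 / 2) with hg
    have hgint : Integrable g := gg_int hH
    have hgg : gg (fun x => (ρ x : ℂ) * H x) (1 / 2 - κ) = fun u => Rr κ c D u * g u := by
      ext u
      simp only [gg, hρ, hg, Rr, Real.log_exp, neg_neg]
      have : (Real.exp (-(1 / 2 - κ) * u) : ℂ) = cexp ((κ : ℂ) * u) * (Real.exp (-(1 / 2) * u) : ℂ) := by
        push_cast
        rw [← Complex.exp_add]
        congr 1; ring
      rw [this]; ring
    have hRb : ∀ ξ : ℝ, ‖𝓕 (Rr κ c D) ξ‖ ≤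
        M * Real.exp (κ * (D + c)) / c / (κ ^ 2 + (2 * Real.pi * ξ) ^ 2) := by
      intro ξ
      rw [four_Rr_eq]
      exact hM κ c D (2 * Real.pi * ξ) hκ hc0
    set A := M * Real.exp (κ * (D + c)) / c with hA
    have hA0 : 0 < A := by rw [hA]; positivity
    have hRc : Continuous (𝓕 (Rr κ c D)) :=
      VectorFourier.fourierIntegral_continuous Real.continuous_fourierChar
        (innerSL ℝ).continuous₂ (Rr_int D hκ hc0)
    have h2pi : (0 : ℝ) < 2 * Real.pi := by positivity
    have hRint : Integrable (𝓕 (Rr κ c D)) := by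
      have h1 : Integrable (fun ξ : ℝ => A * (κ ^ 2 + (2 * Real.pi * ξ) ^ 2)⁻¹) :=
        (((q_int hκ).1.comp_mul_left' h2pi.ne')).const_mul A
      refine Integrable.mono' h1 hRc.aestronglyMeasurable ?_
      filter_upwards with ξ
      rw [← div_eq_mul_inv]
      exact hRb ξ
    have hgc : Continuous (𝓕 g) :=
      VectorFourier.fourierIntegral_continuous Real.continuous_fourierChar
        (innerSL ℝ).continuous₂ hgint
    set B := ∫ u : ℝ, ‖g u‖ with hB
    have hgb : ∀ ξ, ‖𝓕 g ξ‖ ≤ B := fun ξ =>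
      VectorFourier.norm_fourierIntegral_le_integral_norm _ _ _ _ _
    set h : ℝ → ℝ := fun u => ‖mellin H (((1 / 2 : ℝ) : ℂ) + (u : ℂ) * I)‖ with hh
    have hh2 : ∀ u, h u = ‖𝓕 g (u / (2 * Real.pi))‖ := by
      intro u
      simp only [hh]
      rw [mell_eq]
    have hhc : Continuous h := by
      have : h = fun u => ‖𝓕 g (u / (2 * Real.pi))‖ := funext hh2
      rw [this]
      exact (hgc.comp (by fun_prop)).norm
    have hhB : ∀ u, h u ≤ B := fun u => by rw [hh2]; exact hgb _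
    have hh0 : ∀ u, 0 ≤ h u := fun u => norm_nonneg _
    obtain ⟨d1, d2⟩ := dbl hκ (by linarith) hhc hh0 hhB
    -- pointwise
    have hpt : ∀ t : ℝ, ‖mellin (fun x => (ρ x : ℂ) * H x) (((1 / 2 - κ : ℝ) : ℂ) + (t : ℂ) * I)‖ ≤
        A / (2 * Real.pi) * ∫ u : ℝ, (κ ^ 2 + (u - t) ^ 2)⁻¹ * h u := by
      intro t
      rw [mell_eq, hgg, conv (Rr_cont κ c D) (Rr_int D hκ hc0) hRint hgint]
      refine (norm_integral_le_integral_norm _).trans ?_
      set Φ : ℝ → ℝ := fun η => ‖𝓕 (Rr κ c D) η * 𝓕 g (t / (2 * Real.pi) - η)‖ with hΦ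
      have e1 : ∫ η, Φ η = (1 / (2 * Real.pi)) *
          ∫ u : ℝ, Φ (t / (2 * Real.pi) - u / (2 * Real.pi)) := by
        rw [Measure.integral_comp_div (fun u => Φ (t / (2 * Real.pi) - u)), abs_of_pos h2pi,
          smul_eq_mul, integral_sub_left_eq_self Φ volume (t / (2 * Real.pi))]
        field_simp
      rw [e1, div_mul_eq_mul_div, div_mul_eq_mul_div, one_mul]
      apply div_le_div_of_nonneg_right _ h2pi.le
      rw [← MeasureTheory.integral_const_mul]
      have hqi : Integrable (fun u : ℝ => A * ((κ ^ 2 + (u - t) ^ 2)⁻¹ * h u)) := by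
        apply Integrable.const_mul
        have q1 : Integrable (fun u : ℝ => (κ ^ 2 + (u - t) ^ 2)⁻¹) := (q_int hκ).1.comp_sub_right t
        refine Integrable.mono' (q1.mul_const B) ?_ ?_
        · exact q1.aestronglyMeasurable.mul hhc.aestronglyMeasurable
        · filter_upwards with u
          rw [Real.norm_of_nonneg (mul_nonneg (by positivity) (hh0 _))]
          exact mul_le_mul_of_nonneg_left (hhB _) (by positivity)
      apply integral_mono_of_nonneg
      · filter_upwards with u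
        exact norm_nonneg _
      · exact hqi
      · filter_upwards with u
        simp only [hΦ]
        rw [norm_mul, sub_sub_cancel, ← hh2]
        have e2 := hRb (t / (2 * Real.pi) - u / (2 * Real.pi))
        have e3 : (2 * Real.pi * (t / (2 * Real.pi) - u / (2 * Real.pi))) ^ 2 = (u - t) ^ 2 := by
          field_simp; ring
        rw [e3, div_eq_mul_inv] at e2
        calc ‖𝓕 (Rr κ c D) (t / (2 * Real.pi) - u / (2 * Real.pi))‖ * h u
            ≤ (A * (κ ^ 2 + (u - t) ^ 2)⁻¹) * h u := mul_le_mul_of_nonneg_right e2 (hh0 u)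
          _ = _ := by ring
    calc ∫ t : ℝ, ‖mellin (fun x => (ρ x : ℂ) * H x) (((1 / 2 - κ : ℝ) : ℂ) + (t : ℂ) * I)‖ /
          (1 + t ^ 2)
        ≤ ∫ t : ℝ, A / (2 * Real.pi) * ((1 + t ^ 2)⁻¹ * ∫ u : ℝ, (κ ^ 2 + (u - t) ^ 2)⁻¹ * h u) := by
          apply integral_mono_of_nonneg
          · filter_upwards with t; positivity
          · exact d1.const_mul _
          · filter_upwards with t
            rw [div_eq_mul_inv]
            calc _ ≤ (A / (2 * Real.pi) * ∫ u : ℝ, (κ ^ 2 + (u - t) ^ 2)⁻¹ * h u) * (1 + t ^ 2)⁻¹ :=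
                  mul_le_mul_of_nonneg_right (hpt t) (by positivity)
              _ = _ := by ring
      _ = A / (2 * Real.pi) * ∫ t : ℝ, ((1 + t ^ 2)⁻¹ * ∫ u : ℝ, (κ ^ 2 + (u - t) ^ 2)⁻¹ * h u) :=
          MeasureTheory.integral_const_mul _ _
      _ ≤ A / (2 * Real.pi) * (4 * Real.pi / κ * ∫ u : ℝ, h u / (1 + u ^ 2)) :=
          mul_le_mul_of_nonneg_left d2 (by positivity)
      _ = 2 * M * (Real.exp (κ * (D + c)) / (c * κ)) * ∫ u : ℝ, h u / (1 + u ^ 2) := by
          rw [hA]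
          field_simp
          ring

end Pool.Agent.D0H98.MW
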