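import Pool.Agent.D0H44.MW.Mc

/-! Project MW, module P1b (`S_TL`). -/

set_option autoImplicit false

namespace Pool.Agent.D0H98.MW

open Complex Filter Topology MeasureTheory Set Pool.Agent.D0H44.MW

section chars

variable {q : ℕ} [NeZero q] {χ : DirichletCharacter ℂ q}

theorem sum_period (hχ1 : χ ≠ 1) (n : ℕ) : ∑ k ∈ Finset.range q, χ ((n + k : ℕ) : ZMod q) = 0 := by
  have h1 : ∑ a : ZMod q, χ ((n : ZMod q) + a) = 0 := by
    exact (Equiv.sum_comp (Equiv.addLeft (n : ZMod q)) (fun a => χ a)).trans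
      (MulChar.sum_eq_zero_of_ne_one hχ1)
  rw [← h1]
  refine Finset.sum_bij' (fun k _ => (k : ZMod q)) (fun a _ => a.val) ?_ ?_ ?_ ?_ ?_
  · intro a _; exact Finset.mem_univ _
  · intro a _; exact Finset.mem_range.mpr (ZMod.val_lt a)
  · intro a ha; exact ZMod.val_cast_of_lt (Finset.mem_range.mp ha)
  · intro a _; exact ZMod.natCast_zmod_val a
  · intro a _; push_cast; rfl

theorem norm_sum_range_le (hχ1 : χ ≠ 1) (n : ℕ) : ‖∑ k ∈ Finset.range n, χ (k : ZMod q)‖ ≤ q := by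
  induction n using Nat.strong_induction_on with
  | _ n ih =>
    rcases lt_or_ge n q with h | h
    · refine (norm_sum_le _ _).trans ?_
      calc ∑ k ∈ Finset.range n, ‖χ (k : ZMod q)‖ ≤ ∑ k ∈ Finset.range n, (1 : ℝ) :=
            Finset.sum_le_sum fun k _ => DirichletCharacter.norm_le_one χ _
        _ = n := by simp
        _ ≤ q := by exact_mod_cast h.le
    · obtain ⟨m, rfl⟩ := Nat.exists_eq_add_of_le' h
      rw [Finset.sum_range_add, sum_period hχ1, add_zero]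
      exact ih m (by have := NeZero.pos q; omega)

end chars

/-- the function of the Abel summation -/
noncomputable def ff (x : ℝ) (n : ℕ) : ℝ := Real.log n * ga n x

theorem ff_zero (x : ℝ) : ff x 0 = 0 := by simp [ff]

theorem ff_one (x : ℝ) : ff x 1 = 0 := by simp [ff]

theorem ff_nonneg (x : ℝ) (n : ℕ) : 0 ≤ ff x n :=
  mul_nonneg (Real.log_natCast_nonneg n) (ga_pos n x).le

theorem ga_anti (n : ℕ) (x : ℝ) : ga (n + 1) x ≤ ga n x := by
  unfold ga
  apply Real.exp_le_exp.mpr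
  have h : (n : ℝ) ^ 2 ≤ ((n + 1 : ℕ) : ℝ) ^ 2 := by
    push_cast
    have : (0 : ℝ) ≤ n := Nat.cast_nonneg n
    nlinarith
  have h2 : Real.pi * (n : ℝ) ^ 2 * x ^ 2 ≤ Real.pi * ((n + 1 : ℕ) : ℝ) ^ 2 * x ^ 2 := by gcongr
  linarith

/-- `v ^ (1/16) e^(-π v²) ≤ 1` -/
theorem gauss16 (v : ℝ) (hv : 0 < v) : Real.exp (-(Real.pi * v ^ 2)) ≤ v ^ (-(1 / 16) : ℝ) := by
  have h1 : v ^ (1 / 16 : ℝ) ≤ Real.exp (Real.pi * v ^ 2) := by
    rcases le_or_gt v 1 with h | h
    · calc v ^ (1 / 16 : ℝ) ≤ 1 := Real.rpow_le_one hv.le h (by norm_num)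
        _ ≤ _ := Real.one_le_exp (by positivity)
    · calc v ^ (1 / 16 : ℝ) ≤ v ^ (1 : ℝ) := Real.rpow_le_rpow_of_exponent_le h.le (by norm_num)
        _ = v := Real.rpow_one v
        _ ≤ Real.pi * v ^ 2 + 1 := by
            have := Real.pi_gt_three
            nlinarith
        _ ≤ _ := Real.add_one_le_exp _
  rw [Real.rpow_neg hv.le, Real.exp_neg]
  exact inv_anti₀ (by positivity) h1

/-- the increments of the logarithm -/
theorem incr (x : ℝ) (hx : 0 < x) (n : ℕ) (hn : 1 ≤ n) :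
    (Real.log ((n + 1 : ℕ) : ℝ) - Real.log n) * ga (n + 1) x ≤
      x ^ (-(1 / 16) : ℝ) * ((n : ℝ) ^ (17 / 16 : ℝ))⁻¹ := by
  have hn0 : (0 : ℝ) < n := by exact_mod_cast hn
  have h1 : Real.log ((n + 1 : ℕ) : ℝ) - Real.log n ≤ 1 / n := by
    rw [← Real.log_div (by positivity) hn0.ne']
    have := Real.log_le_sub_one_of_pos (x := ((n + 1 : ℕ) : ℝ) / n) (by positivity)
    refine this.trans (le_of_eq ?_)
    push_cast
    field_simp
    ring
  have h2 : ga (n + 1) x ≤ x ^ (-(1 / 16) : ℝ) * (n : ℝ) ^ (-(1 / 16) : ℝ) := by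
    have h3 := gauss16 (((n + 1 : ℕ) : ℝ) * x) (by positivity)
    have h4 : ga (n + 1) x = Real.exp (-(Real.pi * (((n + 1 : ℕ) : ℝ) * x) ^ 2)) := by
      unfold ga; congr 1; ring
    rw [h4]
    refine h3.trans ?_
    rw [Real.mul_rpow (by positivity) hx.le, mul_comm]
    apply mul_le_mul_of_nonneg_left _ (by positivity)
    apply Real.rpow_le_rpow_of_nonpos hn0 _ (by norm_num)
    push_cast; linarith
  calc (Real.log ((n + 1 : ℕ) : ℝ) - Real.log n) * ga (n + 1) x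
      ≤ (1 / n) * (x ^ (-(1 / 16) : ℝ) * (n : ℝ) ^ (-(1 / 16) : ℝ)) :=
        mul_le_mul h1 h2 (ga_pos _ _).le (by positivity)
    _ = x ^ (-(1 / 16) : ℝ) * ((n : ℝ) ^ (17 / 16 : ℝ))⁻¹ := by
        rw [← Real.rpow_neg hn0.le, one_div, ← Real.rpow_neg_one, mul_left_comm,
          ← Real.rpow_add hn0]
        norm_num

theorem log_mono' (n : ℕ) : Real.log n ≤ Real.log ((n + 1 : ℕ) : ℝ) := by
  rcases Nat.eq_zero_or_pos n with rfl | hn
  · simp
  · exact Real.log_le_log (by exact_mod_cast hn) (by push_cast; linarith)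

theorem var_le (x : ℝ) (n : ℕ) : |ff x (n + 1) - ff x n| ≤
    2 * ((Real.log ((n + 1 : ℕ) : ℝ) - Real.log n) * ga (n + 1) x) - (ff x (n + 1) - ff x n) := by
  have h1 : 0 ≤ (Real.log ((n + 1 : ℕ) : ℝ) - Real.log n) * ga (n + 1) x :=
    mul_nonneg (by linarith [log_mono' n]) (ga_pos _ _).le
  have h2 : 0 ≤ Real.log n * (ga n x - ga (n + 1) x) :=
    mul_nonneg (Real.log_natCast_nonneg n) (by linarith [ga_anti n x])
  have h3 : ff x (n + 1) - ff x n = (Real.log ((n + 1 : ℕ) : ℝ) - Real.log n) * ga (n + 1) x -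
      Real.log n * (ga n x - ga (n + 1) x) := by
    unfold ff; ring
  rw [h3, abs_le]
  constructor <;> linarith

theorem var_sum (x : ℝ) (hx : 0 < x) (N : ℕ) :
    ∑ n ∈ Finset.range N, |ff x (n + 1) - ff x n| + ff x N ≤
      2 * (x ^ (-(1 / 16) : ℝ) * ∑' n : ℕ, ((n : ℝ) ^ (17 / 16 : ℝ))⁻¹) := by
  have hs : Summable (fun n : ℕ => ((n : ℝ) ^ (17 / 16 : ℝ))⁻¹) :=
    Real.summable_nat_rpow_inv.mpr (by norm_num)
  have h1 : ∀ n, |ff x (n + 1) - ff x n| ≤
      2 * (x ^ (-(1 / 16) : ℝ) * ((n : ℝ) ^ (17 / 16 : ℝ))⁻¹) - (ff x (n + 1) - ff x n) := by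
    intro n
    rcases Nat.eq_zero_or_pos n with rfl | hn
    · rw [ff_zero, zero_add, ff_one]; simp
    · have := var_le x n
      have := incr x hx n hn
      linarith
  have h2 : ∑ n ∈ Finset.range N, |ff x (n + 1) - ff x n| ≤
      2 * (x ^ (-(1 / 16) : ℝ) * ∑ n ∈ Finset.range N, ((n : ℝ) ^ (17 / 16 : ℝ))⁻¹) - ff x N := by
    calc ∑ n ∈ Finset.range N, |ff x (n + 1) - ff x n|
        ≤ ∑ n ∈ Finset.range N, (2 * (x ^ (-(1 / 16) : ℝ) * ((n : ℝ) ^ (17 / 16 : ℝ))⁻¹) -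
            (ff x (n + 1) - ff x n)) := Finset.sum_le_sum (fun n _ => h1 n)
      _ = _ := by
          rw [Finset.sum_sub_distrib, Finset.sum_range_sub, ff_zero, sub_zero, ← Finset.mul_sum,
            ← Finset.mul_sum]
  have h3 : ∑ n ∈ Finset.range N, ((n : ℝ) ^ (17 / 16 : ℝ))⁻¹ ≤
      ∑' n : ℕ, ((n : ℝ) ^ (17 / 16 : ℝ))⁻¹ := hs.sum_le_tsum _ (fun n _ => by positivity)
  have h4 : x ^ (-(1 / 16) : ℝ) * ∑ n ∈ Finset.range N, ((n : ℝ) ^ (17 / 16 : ℝ))⁻¹ ≤
      x ^ (-(1 / 16) : ℝ) * ∑' n : ℕ, ((n : ℝ) ^ (17 / 16 : ℝ))⁻¹ :=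
    mul_le_mul_of_nonneg_left h3 (by positivity)
  linarith

theorem PG_tl {q : ℕ} (χ : DirichletCharacter ℂ q) :
    PG (fun n : ℕ => χ (n : ZMod q) * (Real.log n : ℂ)) 1 1 := by
  refine ⟨by simp, fun n => ?_⟩
  rw [norm_mul, Complex.norm_real, Real.norm_of_nonneg (Real.log_natCast_nonneg n), pow_one]
  calc ‖χ (n : ZMod q)‖ * Real.log n ≤ 1 * n :=
        mul_le_mul (χ.norm_le_one _) (by
          rcases Nat.eq_zero_or_pos n with rfl | hn
          · simp
          · have := Real.log_le_sub_one_of_pos (x := (n : ℝ)) (by exact_mod_cast hn)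
            linarith) (Real.log_natCast_nonneg n) zero_le_one
    _ = _ := rfl

theorem fin_le {q : ℕ} [NeZero q] (χ : DirichletCharacter ℂ q) (h1 : χ ≠ 1) (x : ℝ) (hx : 0 < x)
    (N : ℕ) : ‖∑ n ∈ Finset.range (N + 1), χ (n : ZMod q) * (Real.log n : ℂ) * (ga n x : ℂ)‖ ≤
      q * (2 * (x ^ (-(1 / 16) : ℝ) * ∑' n : ℕ, ((n : ℝ) ^ (17 / 16 : ℝ))⁻¹)) := by
  have e1 : ∑ n ∈ Finset.range (N + 1), χ (n : ZMod q) * (Real.log n : ℂ) * (ga n x : ℂ) =
      ∑ n ∈ Finset.range (N + 1), (ff x n : ℂ) • χ (n : ZMod q) := by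
    apply Finset.sum_congr rfl
    intro n _
    unfold ff
    push_cast
    rw [smul_eq_mul]; ring
  rw [e1, Finset.sum_range_by_parts]
  have hq : (0 : ℝ) ≤ q := Nat.cast_nonneg q
  simp only [Nat.add_sub_cancel]
  refine (norm_sub_le _ _).trans ?_
  have a1 : ‖(ff x N : ℂ) • ∑ i ∈ Finset.range (N + 1), χ (i : ZMod q)‖ ≤ ff x N * q := by
    rw [norm_smul, Complex.norm_real, Real.norm_of_nonneg (ff_nonneg x N)]
    exact mul_le_mul_of_nonneg_left (norm_sum_range_le h1 _) (ff_nonneg x N)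
  have a2 : ‖∑ i ∈ Finset.range N, ((ff x (i + 1) : ℂ) - (ff x i : ℂ)) •
      ∑ j ∈ Finset.range (i + 1), χ (j : ZMod q)‖ ≤
      (∑ i ∈ Finset.range N, |ff x (i + 1) - ff x i|) * q := by
    refine (norm_sum_le _ _).trans ?_
    rw [Finset.sum_mul]
    apply Finset.sum_le_sum
    intro i _
    rw [norm_smul, ← Complex.ofReal_sub, Complex.norm_real, Real.norm_eq_abs]
    exact mul_le_mul_of_nonneg_left (norm_sum_range_le h1 _) (abs_nonneg _)
  have a3 := mul_le_mul_of_nonneg_left (var_sum x hx N) hq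
  have := add_le_add a1 a2
  refine this.trans (le_trans (le_of_eq ?_) a3)
  ring

theorem tl_le {q : ℕ} [NeZero q] (χ : DirichletCharacter ℂ q) (h1 : χ ≠ 1) (x : ℝ)
    (hx : 0 < x) : ‖tl χ x‖ ≤
      (2 * ∑' n : ℕ, ((n : ℝ) ^ (17 / 16 : ℝ))⁻¹) * q * x ^ (-(1 / 16) : ℝ) := by
  have h2 := (TS_summable (PG_tl χ) x hx).hasSum.tendsto_sum_nat
  have h3 := (tendsto_add_atTop_iff_nat 1).mpr h2
  have h4 := h3.norm
  have h5 := le_of_tendsto' h4 (fun N => fin_le χ h1 x hx N)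
  refine h5.trans (le_of_eq ?_)
  ring

theorem tl_MC {q : ℕ} [NeZero q] (χ : DirichletCharacter ℂ q) (h1 : χ ≠ 1) (σ : ℝ)
    (hσ : 1 / 16 < σ) : MC (tl χ) σ := by
  set C0 : ℝ := (2 * ∑' n : ℕ, ((n : ℝ) ^ (17 / 16 : ℝ))⁻¹) * q with hC0
  have hC00 : 0 ≤ C0 := by
    have : 0 ≤ ∑' n : ℕ, ((n : ℝ) ^ (17 / 16 : ℝ))⁻¹ := tsum_nonneg (fun n => by positivity)
    rw [hC0]; positivity
  have hb0 : ∀ x, 0 < x → ‖tl χ x‖ ≤ C0 * x ^ (-(1 / 16) : ℝ) := fun x hx => tl_le χ h1 x hx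
  obtain ⟨k, hk⟩ := exists_nat_ge (2 * σ + 2)
  have hk2 : 2 ≤ k := by
    have : (2 : ℝ) ≤ k := by linarith
    exact_mod_cast this
  have hb1 : ∀ x, 0 < x → ‖tl χ x‖ ≤ 2 * k.factorial * (x ^ (2 * k))⁻¹ := by
    intro x hx
    have := TS_bound (PG_tl χ) zero_le_one k (by omega) x hx
    rw [one_mul] at this
    refine this.trans (le_of_eq ?_)
    rw [div_eq_mul_inv]; ring
  refine ⟨TS_cont (PG_tl χ) zero_le_one, C0 + 2 * k.factorial, σ - 1 / 16, by linarith, ?_, ?_⟩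
  · intro x hx
    rcases le_or_gt x 1 with h | h
    · refine (hb0 x hx).trans ?_
      have e : -σ + (σ - 1 / 16) = (-(1 / 16) : ℝ) := by ring
      rw [e]
      apply mul_le_mul_of_nonneg_right _ (by positivity)
      have : (0 : ℝ) ≤ 2 * k.factorial := by positivity
      linarith
    · refine (hb1 x hx).trans ?_
      apply mul_le_mul (by linarith) _ (by positivity) (by positivity)
      rw [← Real.rpow_natCast, ← Real.rpow_neg hx.le]
      apply Real.rpow_le_rpow_of_exponent_le h.le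
      push_cast
      linarith
  · intro x hx
    rcases le_or_gt x 1 with h | h
    · refine (hb0 x hx).trans ?_
      apply mul_le_mul _ _ (by positivity) (by positivity)
      · have : (0 : ℝ) ≤ 2 * k.factorial := by positivity
        linarith
      · apply Real.rpow_le_rpow_of_exponent_ge hx h
        linarith
    · refine (hb1 x hx).trans ?_
      apply mul_le_mul (by linarith) _ (by positivity) (by positivity)
      rw [← Real.rpow_natCast, ← Real.rpow_neg hx.le]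
      apply Real.rpow_le_rpow_of_exponent_le h.le
      push_cast
      linarith

/-- identity theorem on a half-plane -/
theorem half_plane {f g : ℂ → ℂ} {σ0 : ℝ} (hf : ∀ s : ℂ, σ0 < s.re → DifferentiableAt ℂ f s)
    (hg : ∀ s : ℂ, σ0 < s.re → DifferentiableAt ℂ g s) (h0 : σ0 ≤ 1)
    (h : ∀ s : ℂ, 1 < s.re → f s = g s) :
    ∀ s : ℂ, σ0 < s.re → f s = g s := by
  have ho : IsOpen {s : ℂ | σ0 < s.re} := isOpen_lt continuous_const Complex.continuous_re
  have hc : IsPreconnected {s : ℂ | σ0 < s.re} := (convex_halfSpace_re_gt σ0).isPreconnected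
  have hf' : AnalyticOnNhd ℂ f {s : ℂ | σ0 < s.re} :=
    DifferentiableOn.analyticOnNhd (fun s hs => (hf s hs).differentiableWithinAt) ho
  have hg' : AnalyticOnNhd ℂ g {s : ℂ | σ0 < s.re} :=
    DifferentiableOn.analyticOnNhd (fun s hs => (hg s hs).differentiableWithinAt) ho
  have h2 : (2 : ℂ) ∈ {s : ℂ | σ0 < s.re} := by
    show σ0 < (2 : ℂ).re
    simp; linarith
  have h3 : f =ᶠ[𝓝 (2 : ℂ)] g := by
    have : {s : ℂ | 1 < s.re} ∈ 𝓝 (2 : ℂ) :=
      (isOpen_lt continuous_const Complex.continuous_re).mem_nhds (by simp)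
    filter_upwards [this] with s hs using h s hs
  exact fun s hs => hf'.eqOn_of_preconnected_of_eventuallyEq hg' hc h2 h3 hs

theorem Gammaℝ_diff {s : ℂ} (hs : 0 < s.re) : DifferentiableAt ℂ Gammaℝ s := by
  have h := differentiable_Gammaℝ_inv s
  have hne : (Gammaℝ s)⁻¹ ≠ 0 := inv_ne_zero (Gammaℝ_ne_zero_of_re_pos hs)
  have := h.fun_inv hne
  simpa using this

theorem logsum {q : ℕ} [NeZero q] (χ : DirichletCharacter ℂ q) (z : ℂ) (hz : 1 < z.re) :
    LSeriesSummable (fun n : ℕ => χ (n : ZMod q) * (Real.log n : ℂ)) z ∧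
    LSeries (fun n : ℕ => χ (n : ZMod q) * (Real.log n : ℂ)) z =
      -deriv (DirichletCharacter.LFunction χ) z := by
  have hq0 : q ≠ 0 := NeZero.ne q
  have ha : LSeries.abscissaOfAbsConv (fun n : ℕ => χ (n : ZMod q)) < z.re := by
    have h1 : LSeries.abscissaOfAbsConv (fun n : ℕ => χ (n : ZMod q)) = 1 :=
      DirichletCharacter.absicssaOfAbsConv_eq_one hq0 χ
    rw [h1]
    exact_mod_cast hz
  have hcong : ∀ {n : ℕ}, n ≠ 0 → LSeries.logMul (fun n : ℕ => χ (n : ZMod q)) n =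
      χ (n : ZMod q) * (Real.log n : ℂ) := by
    intro n _
    show Complex.log n * χ (n : ZMod q) = _
    rw [Complex.natCast_log, mul_comm]
  have h3 : LSeriesSummable (LSeries.logMul (fun n : ℕ => χ (n : ZMod q))) z :=
    LSeriesSummable_logMul_of_lt_re ha
  have h4 : deriv (LSeries (fun n : ℕ => χ (n : ZMod q))) z =
      -LSeries (LSeries.logMul (fun n : ℕ => χ (n : ZMod q))) z := LSeries_deriv ha
  have h5 : deriv (DirichletCharacter.LFunction χ) z =
      deriv (LSeries (fun n : ℕ => χ (n : ZMod q))) z :=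
    DirichletCharacter.deriv_LFunction_eq_deriv_LSeries χ hz
  constructor
  · exact (LSeriesSummable_congr z hcong).mp h3
  · rw [h5, h4, neg_neg]
    exact (LSeries_congr hcong z).symm

theorem tl_mellin {q : ℕ} [NeZero q] (χ : DirichletCharacter ℂ q) (h1 : χ ≠ 1)
    (s : ℂ) (hs : 1 / 16 < s.re) :
    mellin (tl χ) s = -(Gammaℝ s * deriv (DirichletCharacter.LFunction χ) s / 2) := by
  have hd : Differentiable ℂ (DirichletCharacter.LFunction χ) :=
    DirichletCharacter.differentiable_LFunction h1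
  have hdd : Differentiable ℂ (deriv (DirichletCharacter.LFunction χ)) := fun z =>
    (hd.analyticAt z).deriv.differentiableAt
  refine half_plane (f := mellin (tl χ))
    (g := fun s => -(Gammaℝ s * deriv (DirichletCharacter.LFunction χ) s / 2)) (σ0 := 1 / 16)
    (fun z hz => (tl_MC χ h1 z.re hz).differentiableAt) ?_ (by norm_num) ?_ s hs
  · intro z hz
    exact (((Gammaℝ_diff (by linarith)).mul (hdd z)).div_const 2).neg
  · intro z hz
    obtain ⟨hL, hL2⟩ := logsum χ z hz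
    have h2 := mell_TS (PG_tl χ) z (by linarith) hL
    have h3 : mellin (tl χ) z = mellin (TS (fun n : ℕ => χ (n : ZMod q) * (Real.log n : ℂ))) z := rfl
    rw [h3, h2, hL2]
    ring

theorem t_TL : S_TL := by
  have hpos : 0 < ∑' n : ℕ, ((n : ℝ) ^ (17 / 16 : ℝ))⁻¹ := by
    have hs : Summable (fun n : ℕ => ((n : ℝ) ^ (17 / 16 : ℝ))⁻¹) :=
      Real.summable_nat_rpow_inv.mpr (by norm_num)
    exact hs.tsum_pos (fun n => by positivity) 1 (by simp)
  refine ⟨2 * ∑' n : ℕ, ((n : ℝ) ^ (17 / 16 : ℝ))⁻¹, by positivity, ?_⟩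
  intro q _ hq χ h1 _
  exact ⟨fun x hx _ => tl_le χ h1 x hx, fun σ hσ => tl_MC χ h1 σ hσ,
    fun s hs => tl_mellin χ h1 s hs⟩

end Pool.Agent.D0H98.MW
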