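import Pool.Agent.D0H44.MW.Stm2
import Pool.Agent.D0H98.MW.Tl

/-! Project MW, module P8b (`T_ONE`). -/

set_option autoImplicit false

namespace Pool.Agent.D0H98.MW

open Complex Filter Topology MeasureTheory Set Pool.Agent.D0H44.MW

/-- number of even characters -/
theorem card_ev (q : ℕ) [NeZero q] (hq : q.Prime) (h5 : 5 ≤ q) :
    (1 / 4 : ℝ) * Nat.totient q ≤ (ev q).card := by
  classical
  have hne : (-1 : ZMod q) ≠ 1 := by
    have : Fact (2 < q) := ⟨by omega⟩
    exact ZMod.neg_one_ne_one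
  have h1 : ∑ χ : DirichletCharacter ℂ q, χ (1 : ZMod q) = (Nat.totient q : ℂ) := by
    rw [DirichletCharacter.sum_characters_eq, if_pos rfl]
  have h2 : ∑ χ : DirichletCharacter ℂ q, χ (-1 : ZMod q) = 0 := by
    rw [DirichletCharacter.sum_characters_eq, if_neg hne]
  have h3 : ∑ χ : DirichletCharacter ℂ q, (χ (1 : ZMod q) + χ (-1 : ZMod q)) = (Nat.totient q : ℂ) := by
    rw [Finset.sum_add_distrib, h1, h2, add_zero]
  have h4 : ∀ χ : DirichletCharacter ℂ q, χ (1 : ZMod q) + χ (-1 : ZMod q) =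
      if χ.Even then (2 : ℂ) else 0 := by
    intro χ
    rw [map_one]
    split_ifs with h
    · have : χ (-1 : ZMod q) = 1 := h
      rw [this]; norm_num
    · rcases χ.even_or_odd with h' | h'
      · exact absurd h' h
      · have : χ (-1 : ZMod q) = -1 := h'
        rw [this]; norm_num
  simp_rw [h4] at h3
  rw [← Finset.sum_filter, Finset.sum_const, nsmul_eq_mul] at h3
  have h5' : (Finset.univ.filter (fun χ : DirichletCharacter ℂ q => χ.Even)).card * 2 = Nat.totient q := by
    exact_mod_cast h3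
  have h6 : (Finset.univ.filter (fun χ : DirichletCharacter ℂ q => χ.Even)) ⊆ insert 1 (ev q) := by
    intro χ hχ
    rw [Finset.mem_filter] at hχ
    rw [Finset.mem_insert]
    by_cases h : χ = 1
    · exact Or.inl h
    · right
      simp only [ev, Finset.mem_filter, Finset.mem_univ, true_and]
      exact ⟨h, hχ.2⟩
  have h7 := (Finset.card_le_card h6).trans (Finset.card_insert_le _ _)
  have h8 : Nat.totient q = q - 1 := Nat.totient_prime hq
  have h9 : (Nat.totient q : ℝ) ≤ 2 * (ev q).card + 2 := by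
    have : Nat.totient q ≤ 2 * (ev q).card + 2 := by omega
    exact_mod_cast this
  have h10 : (4 : ℝ) ≤ Nat.totient q := by
    have : 4 ≤ Nat.totient q := by omega
    exact_mod_cast this
  linarith

/-- the reduced residues -/
def RS (q : ℕ) : Finset ℕ := (Finset.range q).filter (fun a => a.Coprime q)

theorem sum_RS {q : ℕ} [NeZero q] {χ : DirichletCharacter ℂ q} (h1 : χ ≠ 1) :
    ∑ a ∈ RS q, χ (a : ZMod q) = 0 := by
  have h2 := sum_period h1 0
  simp only [zero_add] at h2
  rw [← h2, RS, Finset.sum_filter]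
  apply Finset.sum_congr rfl
  intro a _
  split_ifs with h
  · rfl
  · symm
    apply χ.map_nonunit
    intro hu
    exact h ((ZMod.isUnit_iff_coprime a q).mp hu)

theorem ps_eq {q : ℕ} [NeZero q] {χ : DirichletCharacter ℂ q} (h1 : χ ≠ 1) (u : ℝ) :
    ps χ u = ∑ a ∈ RS q, χ (a : ZMod q) * ((psa u q a - u / Nat.totient q : ℝ) : ℂ) := by
  have e1 : ∑ a ∈ RS q, χ (a : ZMod q) * ((psa u q a - u / Nat.totient q : ℝ) : ℂ) =
      ∑ a ∈ RS q, χ (a : ZMod q) * ((psa u q a : ℝ) : ℂ) := by
    have : ∀ a : ℕ, χ (a : ZMod q) * ((psa u q a - u / Nat.totient q : ℝ) : ℂ) =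
        χ (a : ZMod q) * ((psa u q a : ℝ) : ℂ) - χ (a : ZMod q) * ((u / Nat.totient q : ℝ) : ℂ) := by
      intro a; push_cast; ring
    simp_rw [this]
    rw [Finset.sum_sub_distrib, ← Finset.sum_mul, sum_RS h1, zero_mul, sub_zero]
  rw [e1]
  unfold psa ps
  have e2 : ∀ a ∈ RS q, χ (a : ZMod q) * ((∑ n ∈ (Finset.Icc 1 ⌊u⌋₊).filter (fun n => n ≡ a [MOD q]),
      ArithmeticFunction.vonMangoldt n : ℝ) : ℂ) =
      ∑ n ∈ Finset.Icc 1 ⌊u⌋₊, if n ≡ a [MOD q] then
        (ArithmeticFunction.vonMangoldt n : ℂ) * χ (n : ZMod q) else 0 := by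
    intro a _
    push_cast
    rw [Finset.mul_sum, Finset.sum_filter]
    apply Finset.sum_congr rfl
    intro n _
    split_ifs with h
    · have : (n : ZMod q) = (a : ZMod q) := (ZMod.natCast_eq_natCast_iff n a q).mpr h
      rw [this, mul_comm]
    · rfl
  rw [Finset.sum_congr rfl e2, Finset.sum_comm]
  apply Finset.sum_congr rfl
  intro n _
  by_cases hc : n.Coprime q
  · rw [Finset.sum_eq_single (n % q)]
    · rw [if_pos (Nat.mod_modEq n q).symm]
    · intro a ha hne
      rw [if_neg]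
      intro h
      apply hne
      simp only [RS, Finset.mem_filter, Finset.mem_range] at ha
      have : n % q = a % q := h
      rw [Nat.mod_eq_of_lt ha.1] at this
      exact this.symm
    · intro h
      exfalso
      apply h
      simp only [RS, Finset.mem_filter, Finset.mem_range]
      refine ⟨Nat.mod_lt _ (NeZero.pos q), ?_⟩
      rw [Nat.Coprime, ← Nat.gcd_rec, Nat.gcd_comm]
      exact hc
  · have h0 : χ (n : ZMod q) = 0 := by
      apply χ.map_nonunit
      intro hu
      exact hc ((ZMod.isUnit_iff_coprime n q).mp hu)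
    rw [h0, mul_zero]
    symm
    apply Finset.sum_eq_zero
    intro a _
    split_ifs <;> rfl

/-- Parseval -/
theorem pars (q : ℕ) [NeZero q] (E : ℕ → ℝ) :
    ∑ χ : DirichletCharacter ℂ q, ‖∑ a ∈ RS q, χ (a : ZMod q) * (E a : ℂ)‖ ^ 2 ≤
      Nat.totient q * ∑ a ∈ RS q, E a ^ 2 := by
  classical
  have h := orth q (RS q) (fun a : ℕ => (a : ZMod q)) (fun a => (E a : ℂ))
  rw [h]
  apply mul_le_mul_of_nonneg_left _ (Nat.cast_nonneg _)
  have h1 : ∀ c : (ZMod q)ˣ, (RS q).filter (fun a : ℕ => (a : ZMod q) = c) = {(c : ZMod q).val} := by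
    intro c
    ext a
    simp only [RS, Finset.mem_filter, Finset.mem_range, Finset.mem_singleton]
    constructor
    · rintro ⟨⟨h1, h2⟩, h3⟩
      rw [← h3, ZMod.val_natCast, Nat.mod_eq_of_lt h1]
    · intro h1
      rw [h1]
      refine ⟨⟨ZMod.val_lt _, ZMod.val_coe_unit_coprime c⟩, ZMod.natCast_zmod_val _⟩
  simp_rw [h1, Finset.sum_singleton]
  have h2 : ∀ c : (ZMod q)ˣ, ‖(E (c : ZMod q).val : ℂ)‖ ^ 2 = E (c : ZMod q).val ^ 2 := by
    intro c
    rw [Complex.norm_real, Real.norm_eq_abs, sq_abs]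
  simp_rw [h2]
  have h3 : ∑ c : (ZMod q)ˣ, E (c : ZMod q).val ^ 2 =
      ∑ a ∈ Finset.univ.image (fun c : (ZMod q)ˣ => (c : ZMod q).val), E a ^ 2 := by
    rw [Finset.sum_image]
    intro c _ d _ hcd
    exact Units.ext (ZMod.val_injective q hcd)
  rw [h3]
  apply Finset.sum_le_sum_of_subset_of_nonneg
  · intro a ha
    rw [Finset.mem_image] at ha
    obtain ⟨c, _, rfl⟩ := ha
    simp only [RS, Finset.mem_filter, Finset.mem_range]
    exact ⟨ZMod.val_lt _, ZMod.val_coe_unit_coprime c⟩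
  · intro a _ _
    positivity

/-- step functions are integrable -/
theorem stepInt (G : ℕ → ℝ) (a b : ℝ) : IntervalIntegrable (fun v : ℝ => G ⌊v⌋₊) volume a b := by
  set M := ∑ n ∈ Finset.range (⌊max a b⌋₊ + 1), |G n| with hM
  have hbd : ∀ v ∈ uIoc a b, ‖G ⌊v⌋₊‖ ≤ M := by
    intro v hv
    rw [uIoc, mem_Ioc] at hv
    have h1 : ⌊v⌋₊ ∈ Finset.range (⌊max a b⌋₊ + 1) := by
      rw [Finset.mem_range, Nat.lt_succ_iff]
      exact Nat.floor_le_floor hv.2
    rw [Real.norm_eq_abs]
    exact Finset.single_le_sum (f := fun n => |G n|) (fun _ _ => abs_nonneg _) h1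
  have hmeas : Measurable (fun v : ℝ => G ⌊v⌋₊) :=
    (measurable_from_nat (f := G)).comp Nat.measurable_floor
  rw [intervalIntegrable_iff]
  refine Measure.integrableOn_of_bounded (M := M) ?_ hmeas.aestronglyMeasurable ?_
  · rw [uIoc, Real.volume_Ioc]; exact ENNReal.ofReal_ne_top
  · filter_upwards [ae_restrict_mem measurableSet_uIoc] with v hv
    exact hbd v hv

theorem one (h : S_V) : T_ONE := by
  classical
  intro B ε hB hε
  obtain ⟨c, hc, q₀, hq₀⟩ := h B ε (1 / 4) hB hε (by norm_num)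
  refine ⟨c, hc, max q₀ 5, ?_⟩
  intro q hq hqq x hx1 hx2
  have : NeZero q := ⟨hq.ne_zero⟩
  have hq5 : 5 ≤ q := (le_max_right _ _).trans hqq
  have hq0 : (0 : ℝ) < q := by exact_mod_cast hq.pos
  have hx0 : 0 < x := lt_of_lt_of_le (by positivity) hx1
  have hmain := hq₀ q hq ((le_max_left _ _).trans hqq) x hx1 hx2 (ev q) (Finset.Subset.refl _)
    (card_ev q hq hq5)
  set x' := x * (q : ℝ) ^ (1 + ε) with hx'
  have hxx' : x ≤ x' := by
    rw [hx']
    have : (1 : ℝ) ≤ (q : ℝ) ^ (1 + ε) := Real.one_le_rpow (by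
      have : (5 : ℝ) ≤ q := by exact_mod_cast hq5
      linarith) (by linarith)
    nlinarith
  have hφ : (0 : ℝ) < Nat.totient q := by exact_mod_cast Nat.totient_pos.mpr hq.pos
  -- integrability
  have hcont : ContinuousOn (fun v : ℝ => (v ^ 2)⁻¹) (uIcc x x') := by
    rw [uIcc_of_le hxx']
    apply ContinuousOn.inv₀ (by fun_prop)
    intro v hv
    have : 0 < v := lt_of_lt_of_le hx0 hv.1
    positivity
  have i1 : ∀ χ : DirichletCharacter ℂ q, IntervalIntegrable (fun v : ℝ => ‖ps χ v‖ ^ 2 / v ^ 2)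
      volume x x' := by
    intro χ
    have := (stepInt (fun N => ‖∑ n ∈ Finset.Icc 1 N, (ArithmeticFunction.vonMangoldt n : ℂ) *
      χ (n : ZMod q)‖ ^ 2) x x').mul_continuousOn hcont
    refine this.congr ?_
    intro v _
    simp only [ps, div_eq_mul_inv]
  have i2 : ∀ a : ℕ, IntervalIntegrable (fun v : ℝ => (psa v q a - v / Nat.totient q) ^ 2 / v ^ 2)
      volume x x' := by
    intro a
    set G : ℕ → ℝ := fun N => ∑ n ∈ (Finset.Icc 1 N).filter (fun n => n ≡ a [MOD q]),
      ArithmeticFunction.vonMangoldt n with hG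
    have j1 := (stepInt (fun N => G N ^ 2) x x').mul_continuousOn hcont
    have j2 := (stepInt G x x').mul_continuousOn
      (hcont.mul (by fun_prop : ContinuousOn (fun v : ℝ => -2 * v / Nat.totient q) (uIcc x x')))
    have j3 : IntervalIntegrable (fun v : ℝ => (v / Nat.totient q) ^ 2 * (v ^ 2)⁻¹) volume x x' :=
      ((by fun_prop : ContinuousOn (fun v : ℝ => (v / Nat.totient q) ^ 2) (uIcc x x')).mul
        hcont).intervalIntegrable
    refine ((j1.add j2).add j3).congr ?_
    intro v _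
    have : psa v q a = G ⌊v⌋₊ := rfl
    simp only [this, Pi.mul_apply]
    ring
  have i3 : IntervalIntegrable (fun v : ℝ => (∑ a ∈ RS q,
      (psa v q a - v / Nat.totient q) ^ 2) / v ^ 2) volume x x' := by
    have := IntervalIntegrable.sum (RS q) (fun a _ => i2 a)
    refine this.congr ?_
    intro v _
    simp only [Finset.sum_apply, Finset.sum_div]
  have h1 : ∑ χ ∈ ev q, ∫ v in x..x', ‖ps χ v‖ ^ 2 / v ^ 2 =
      ∫ v in x..x', ∑ χ ∈ ev q, ‖ps χ v‖ ^ 2 / v ^ 2 := by
    rw [intervalIntegral.integral_finsetSum]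
    intro χ _
    exact i1 χ
  have h2 : ∫ v in x..x', ∑ χ ∈ ev q, ‖ps χ v‖ ^ 2 / v ^ 2 ≤
      ∫ v in x..x', (Nat.totient q : ℝ) * ((∑ a ∈ RS q,
        (psa v q a - v / Nat.totient q) ^ 2) / v ^ 2) := by
    apply intervalIntegral.integral_mono_on hxx'
    · have := IntervalIntegrable.sum (ev q) (fun χ _ => i1 χ)
      refine this.congr ?_
      intro v _
      rw [Finset.sum_apply]
    · exact i3.const_mul _
    · intro v hv
      rw [← Finset.sum_div, ← mul_div_assoc]
      apply div_le_div_of_nonneg_right _ (by positivity)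
      calc ∑ χ ∈ ev q, ‖ps χ v‖ ^ 2
          = ∑ χ ∈ ev q, ‖∑ a ∈ RS q, χ (a : ZMod q) *
              ((psa v q a - v / Nat.totient q : ℝ) : ℂ)‖ ^ 2 := by
            apply Finset.sum_congr rfl
            intro χ hχ
            simp only [ev, Finset.mem_filter, Finset.mem_univ, true_and] at hχ
            rw [ps_eq hχ.1]
        _ ≤ ∑ χ : DirichletCharacter ℂ q, ‖∑ a ∈ RS q, χ (a : ZMod q) *
              ((psa v q a - v / Nat.totient q : ℝ) : ℂ)‖ ^ 2 :=
            Finset.sum_le_sum_of_subset_of_nonneg (Finset.subset_univ _)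
              (fun _ _ _ => by positivity)
        _ ≤ _ := pars q _
  rw [h1] at hmain
  have h3 := hmain.trans h2
  rw [intervalIntegral.integral_const_mul] at h3
  have h4 : (Nat.totient q : ℝ) * (c * Real.log q ^ 2) ≤ Nat.totient q *
      ∫ v in x..x', (∑ a ∈ RS q, (psa v q a - v / Nat.totient q) ^ 2) / v ^ 2 := by
    refine le_trans (le_of_eq ?_) h3
    ring
  exact le_of_mul_le_mul_left h4 hφ

end Pool.Agent.D0H98.MW
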